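import Pool.Agent.H450Z.SGMain

set_option autoImplicit false

namespace Pool.Agent.Results.MP_46f8bc_an.ANoSemigroup

open Filter Topology

/-- Every norm continuous semigroup `(a t)`, `t > 0`, in the algebra of functions on the positive
rationals which are summable for the weight `exp (-r ^ 2)`, with the convolution product, is zero.
An element is given by its coefficients `a t r`, which vanish for `r ≤ 0`. -/
theorem result (a : ℝ → ℚ → ℂ) (hsupp : ∀ t > 0, ∀ r ≤ 0, a t r = 0)
    (hsum : ∀ t > 0, Summable fun r : ℚ => ‖a t r‖ * Real.exp (-(r : ℝ) ^ 2))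
    (hmul : ∀ s > 0, ∀ t > 0, ∀ r, a (s + t) r = ∑' p, a s p * a t (r - p))
    (hcont : ∀ t > 0, Tendsto (fun s => ∑' r : ℚ, ‖a s r - a t r‖ * Real.exp (-(r : ℝ) ^ 2))
      (𝓝 t) (𝓝 0)) : ∀ t > 0, ∀ r, a t r = 0 :=
  Pool.Agent.H450Z.SG.main a hsupp hsum hmul hcont

end Pool.Agent.Results.MP_46f8bc_an.ANoSemigroup
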